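import Mathlib
import Pool.Agent.Work.MP_af11aa_nt.K.Hybrid

open UpperHalfPlane
open Pool.Agent.Work.MP_af11aa_nt

/-- Pointwise bound, uniform in the level, for the Fourier coefficients of an orthonormal family of
weight `3/2` cusp forms of level `24 p`, at the integers `n = q m` with `q` squarefree and prime
to `6 p`. -/
theorem Pool.Agent.Results.MP_af11aa_nt.HybridBound.result :
    ∀ ε : ℝ, 0 < ε → ∃ C : ℝ, 0 < C ∧ ∀ p : ℕ, p.Prime →
      ∀ (χ : DirichletCharacter ℂ (24 * p)) (K : ℕ) (φ : Fin K → ℍ → ℂ),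
      (∀ k, IsCuspForm (24 * p) χ (φ k)) →
      (∀ j k, peterssonInner (24 * p) (φ j) (φ k) = if j = k then 1 else 0) →
      ∀ q : ℕ, Squarefree q → q.Coprime (6 * p) → ∀ m : ℕ, 0 < m →
        ∑ k, ‖fourierCoeff (φ k) (q * m)‖ ^ 2 ≤
          C * ((p * q * m : ℕ) : ℝ) ^ ε * Real.sqrt (q * m) *
            (q + Real.sqrt (m * (m.gcd (p * q) : ℕ)) / p) :=
  fun ε hε ↦ K.hybrid ε hε
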