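import Mathlib
import Pool.Agent.Work.MP_af11aa_nt.T.Final

open UpperHalfPlane
open Pool.Agent.Work.MP_af11aa_nt

/-- Bound for the Fourier coefficients of an orthonormal family of weight `3/2` cusp forms of
level `24 p`, at the squarefree integers prime to `p`, uniform in the level and with the saving
`p ^ (-11/14)` in the second term. -/
theorem Pool.Agent.Results.MP_af11aa_nt.HybridIwaniec.result (ε : ℝ) (hε : 0 < ε) :
    ∃ C : ℝ, 0 < C ∧ ∀ p : ℕ, p.Prime →
      ∀ (χ : DirichletCharacter ℂ (24 * p)) (K : ℕ) (φ : Fin K → ℍ → ℂ),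
      (∀ k, IsCuspForm (24 * p) χ (φ k)) →
      (∀ j k, peterssonInner (24 * p) (φ j) (φ k) = if j = k then 1 else 0) →
      ∀ r : ℕ, Squarefree r → r.Coprime p →
        ∑ k, ‖fourierCoeff (φ k) r‖ ^ 2 ≤
          C * ((p * r : ℕ) : ℝ) ^ ε *
            (Real.sqrt r + (r : ℝ) ^ (13 / 14 : ℝ) * (p : ℝ) ^ (-(11 / 14) : ℝ)) :=
  T.hybridIwaniec ε hε
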