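import Mathlib
import Pool.Agent.Work.MP_af11aa_nt.Twisted

open UpperHalfPlane
open Pool.Agent.Work.MP_af11aa_nt

/-- Upper bound of the expected order for the mean square of the coefficients of a weight `3/2`
cusp form of level `24 p`, weighted by an arbitrary nonnegative multiplicative function which is
bounded on the primes. -/
theorem Pool.Agent.Results.MP_af11aa_nt.ShiuMeanSquare.result :
    ∀ A : ℝ, ∃ C : ℝ, 0 < C ∧ ∀ p : ℕ, p.Prime →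
      ∀ (χ : DirichletCharacter ℂ (24 * p)) (f : ℍ → ℂ), IsCuspForm (24 * p) χ f →
      BddAbove (Set.range fun z : ℍ ↦ z.im ^ (3 / 2 : ℝ) * ‖f z‖ ^ 2) ∧
      ∀ g : ℕ → ℝ, (∀ l : ℕ, l.Prime → 0 ≤ g l ∧ g l ≤ A) → ∀ X : ℝ, 2 ≤ X →
        ∑ n ∈ Finset.Icc 1 ⌊X⌋₊, (∏ l ∈ n.primeFactors, g l) * ‖fourierCoeff f n‖ ^ 2 ≤
          C * (⨆ z : ℍ, z.im ^ (3 / 2 : ℝ) * ‖f z‖ ^ 2) *
            (X ^ (3 / 2 : ℝ) / Real.log X *
              Real.exp (∑ l ∈ (Finset.Icc 1 ⌊X⌋₊).filter Nat.Prime, g l / l) +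
                p * X ^ (21 / 16 : ℝ)) := by
  intro A
  obtain ⟨C, hC, hmain⟩ := twisted_bound (A := max A 1) (le_max_right _ _)
  refine ⟨C, hC, fun p hp χ f hf ↦ ?_⟩
  have : NeZero (24 * p) := ⟨by have := hp.pos; omega⟩
  have hbdd : BddAbove (Set.range fun z : ℍ ↦ z.im ^ (3 / 2 : ℝ) * ‖f z‖ ^ 2) := by
    obtain ⟨B, hB⟩ := exists_sup_bound hf
    exact ⟨B, by rintro _ ⟨z, rfl⟩; exact hB z⟩
  refine ⟨hbdd, fun g hg X hX ↦ ?_⟩
  exact hmain hp hf (fun w ↦ le_ciSup hbdd w) g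
    (fun l hl ↦ ⟨(hg l hl).1, (hg l hl).2.trans (le_max_left _ _)⟩) hX
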