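import Mathlib
import Pool.Agent.Work.MP_af11aa_nt.W2.Weyl

open UpperHalfPlane
open Pool.Agent.Work.MP_af11aa_nt

/-- Pointwise bound of sub-Weyl quality for the Fourier coefficients of an orthonormal family of
weight `3/2` cusp forms of level `24 p`, at the squarefree integers `r` without prime factors above
`r ^ (4 / 25)`, in terms of a divisor `q` of `r` just below `r ^ (1 / 3)`. -/
theorem Pool.Agent.Results.MP_af11aa_nt.SubWeyl.result :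
    ∃ A : ℝ, 0 < A ∧ ∀ ε : ℝ, 0 < ε → ∃ C : ℝ, 0 < C ∧ ∀ p : ℕ, p.Prime →
      ∀ (χ : DirichletCharacter ℂ (24 * p)) (K : ℕ) (φ : Fin K → ℍ → ℂ),
      (∀ k, IsCuspForm (24 * p) χ (φ k)) →
      (∀ j k, peterssonInner (24 * p) (φ j) (φ k) = if j = k then 1 else 0) →
      ∀ r : ℕ, Squarefree r →
        (∀ l : ℕ, l.Prime → l ∣ r → (l : ℝ) ≤ (r : ℝ) ^ (4 / 25 : ℝ)) →
        ∀ q : ℕ, q ∣ r →
          (r : ℝ) ^ (1 / 3 - 1 / 10 ^ 8 : ℝ) ≤ q → (q : ℝ) ≤ (r : ℝ) ^ (1 / 3 : ℝ) →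
          ∑ k, ‖fourierCoeff (φ k) r‖ ^ 2 ≤ C * (p : ℝ) ^ A * (r : ℝ) ^ (1 / 2 + ε) * q :=
  W2.weyl
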